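import Pool.Agent.H1.PF.Main

/-!
`P(ω₁)/Fin` has an automorphism without nontrivial fixed points if and only if it is isomorphic
to `P(ω)/Fin`.
-/

namespace Pool.Agent.H1.PF

open Set Pool.Agent.H87.PFinAlg PFin

/-- An order isomorphism of the quotients from a map on sets. -/
theorem nonempty_iso {X Y : Type} (F : Set X → Set Y)
    (h1 : ∀ S S' : Set X, (F S \ F S').Finite ↔ (S \ S').Finite)
    (h2 : ∀ T : Set Y, ∃ S : Set X, mk (F S) = mk T) :
    ∃ e : PFin X ≃o PFin Y, ∀ S, e (mk S) = mk (F S) := by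
  let f : PFin X → PFin Y := fun a => mk (F (Quotient.out a))
  have hf : ∀ S, f (mk S) = mk (F S) := by
    intro S
    have h3 : mk (Quotient.out (mk S)) = mk S := Quotient.out_eq (s := finSetoid X) _
    rw [mk_eq_mk] at h3
    show mk (F (Quotient.out (mk S))) = mk (F S)
    rw [mk_eq_mk]
    exact ⟨(h1 _ _).2 h3.1, (h1 _ _).2 h3.2⟩
  have hle : ∀ a b, f a ≤ f b ↔ a ≤ b := by
    intro a b
    induction a using PFin.ind with
    | h A =>
      induction b using PFin.ind with
      | h B => rw [hf, hf, mk_le_mk, mk_le_mk, h1]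
  have hinj : Function.Injective f := by
    intro a b hab
    exact le_antisymm ((hle _ _).1 hab.le) ((hle _ _).1 hab.ge)
  have hsurj : Function.Surjective f := by
    intro b
    induction b using PFin.ind with
    | h B =>
      obtain ⟨S, hS⟩ := h2 B
      exact ⟨mk S, by rw [hf, hS]⟩
  refine ⟨⟨Equiv.ofBijective f ⟨hinj, hsurj⟩, fun {a b} => hle a b⟩, hf⟩

/-- Equinumerous types have isomorphic quotients. -/
theorem iso_of_mk_eq {X Y : Type} (h : Cardinal.mk X = Cardinal.mk Y) :
    Nonempty (PFin X ≃o PFin Y) := by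
  obtain ⟨e⟩ := Cardinal.eq.1 h
  obtain ⟨i, _⟩ := nonempty_iso (fun S : Set X => e '' S) (by
    intro S S'
    rw [← image_sdiff e.injective]
    exact Set.finite_image_iff e.injective.injOn) (by
    intro T
    refine ⟨e ⁻¹' T, ?_⟩
    rw [Set.image_preimage_eq _ e.surjective])
  exact ⟨i⟩

/-- The restriction of an automorphism to the sets below `A`. -/
theorem iso_restrict {Ω : Type} (π : PFin Ω ≃o PFin Ω) {A B : Set Ω}
    (hAB : π (mk A) = mk B) : Nonempty (PFin A ≃o PFin B) := by
  -- images of subsets of `A` are almost inside `B`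
  have h1 : ∀ S : Set A, (lft π (Subtype.val '' S) \ B).Finite := by
    intro S
    rw [← mk_le_mk, mk_lft, ← hAB, π.le_iff_le, mk_le_mk]
    refine Set.finite_empty.subset ?_
    rintro x ⟨⟨y, _, rfl⟩, h⟩
    exact h y.2
  have h1' : ∀ T : Set B, (lft π.symm (Subtype.val '' T) \ A).Finite := by
    intro T
    rw [← mk_le_mk, mk_lft, π.symm_apply_le, hAB, mk_le_mk]
    refine Set.finite_empty.subset ?_
    rintro x ⟨⟨y, _, rfl⟩, h⟩
    exact h y.2
  have himg : ∀ (C U : Set Ω), (U \ C).Finite →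
      mk (Subtype.val '' (Subtype.val ⁻¹' U : Set C)) = mk U := by
    intro C U hU
    rw [mk_eq_mk, Subtype.image_preimage_coe]
    refine ⟨Set.finite_empty.subset ?_, hU.subset ?_⟩
    · intro x hx
      exact hx.2 hx.1.2
    · intro x hx
      refine ⟨hx.1, fun h => hx.2 ⟨h, hx.1⟩⟩
  have hfin : ∀ (C : Set Ω) (S S' : Set C), (S \ S').Finite ↔
      ((Subtype.val '' S : Set Ω) \ Subtype.val '' S').Finite := by
    intro C S S'
    rw [← image_sdiff Subtype.val_injective]
    exact (Set.finite_image_iff Subtype.val_injective.injOn).symm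
  obtain ⟨i, _⟩ := nonempty_iso (X := A) (Y := B)
    (fun S => Subtype.val ⁻¹' (lft π (Subtype.val '' S))) (by
      intro S S'
      rw [hfin B, hfin A S S', ← mk_le_mk, ← mk_le_mk, himg B _ (h1 S), himg B _ (h1 S'),
        mk_lft, mk_lft, π.le_iff_le]) (by
      intro T
      refine ⟨Subtype.val ⁻¹' (lft π.symm (Subtype.val '' T)), ?_⟩
      have h2 : mk (Subtype.val '' (Subtype.val ⁻¹' (lft π (Subtype.val ''
          (Subtype.val ⁻¹' (lft π.symm (Subtype.val '' T)) : Set A))) : Set B)) =
          mk (Subtype.val '' T) := by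
        rw [himg B _ (h1 _), mk_lft, himg A _ (h1' T), mk_lft, OrderIso.apply_symm_apply]
      rw [mk_eq_mk] at h2 ⊢
      exact ⟨(hfin B _ _).2 h2.1, (hfin B _ _).2 h2.2⟩)
  exact ⟨i⟩

/-- The shift of `P(ω)/Fin` has no nontrivial fixed point. -/
theorem exists_shift : ∃ s : PFin ℕ ≃o PFin ℕ, NoNontrivialFixedPoint s := by
  obtain ⟨s, hs⟩ := nonempty_iso (fun S : Set ℕ => Nat.succ '' S) (by
    intro S S'
    rw [← image_sdiff Nat.succ_injective]
    exact Set.finite_image_iff Nat.succ_injective.injOn) (by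
    intro T
    refine ⟨Nat.succ ⁻¹' T, ?_⟩
    rw [mk_eq_mk]
    constructor
    · refine Set.finite_empty.subset ?_
      rintro _ ⟨⟨n, hn, rfl⟩, h⟩
      exact h hn
    · refine (Set.finite_singleton 0).subset ?_
      rintro n ⟨h3, h4⟩
      rcases Nat.eq_zero_or_pos n with h | h
      · exact h
      · exfalso
        apply h4
        refine ⟨n - 1, ?_, ?_⟩
        · show (n - 1).succ ∈ T
          have : (n - 1).succ = n := by omega
          rwa [this]
        · show (n - 1).succ = n
          omega)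
  refine ⟨s, fun A hA => ?_⟩
  rw [hs, mk_eq_mk] at hA
  obtain ⟨N, hN⟩ := (hA.1.union hA.2).bddAbove
  have h3 : ∀ n, N ≤ n → (n + 1 ∈ A ↔ n ∈ A) := by
    intro n hn
    have h4 : n + 1 ∉ (Nat.succ '' A \ A) ∪ (A \ Nat.succ '' A) := by
      intro h5
      have := hN h5
      omega
    have h5 : n + 1 ∈ Nat.succ '' A ↔ n ∈ A :=
      ⟨fun ⟨m, hm, hmn⟩ => (Nat.succ_injective hmn) ▸ hm, fun h => ⟨n, h, rfl⟩⟩
    rw [← h5]
    simp only [mem_union, mem_sdiff, not_or, not_and, not_not] at h4
    exact ⟨fun h => h4.2 h, fun h => h4.1 h⟩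
  by_cases h : N ∈ A
  · right
    refine (Set.finite_lt_nat N).subset ?_
    intro n hn
    by_contra hcon
    apply hn
    obtain ⟨k, rfl⟩ := Nat.exists_eq_add_of_le (not_lt.1 hcon)
    clear hn hcon
    induction k with
    | zero => exact h
    | succ k ih => exact (h3 (N + k) (by omega)).2 ih
  · left
    refine (Set.finite_lt_nat N).subset ?_
    intro n hn
    by_contra hcon
    obtain ⟨k, rfl⟩ := Nat.exists_eq_add_of_le (not_lt.1 hcon)
    apply h
    clear hcon
    induction k with
    | zero => exact hn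
    | succ k ih => exact ih ((h3 (N + k) (by omega)).1 hn)

/-- If all automorphisms preserving cardinality have nontrivial fixed points, an automorphism
without them gives an isomorphism with `P(ω)/Fin`. -/
theorem iso_of_not_cp {Ω : Type} (hΩ : Cardinal.mk Ω = Cardinal.aleph 1)
    (π : PFin Ω ≃o PFin Ω) (hcp : ¬ CardinalityPreserving π) :
    Nonempty (PFin ℕ ≃o PFin Ω) := by
  simp only [CardinalityPreserving, not_forall] at hcp
  obtain ⟨A, B, hA, hB, hAB, hne⟩ := hcp
  have hcard : ∀ C : Set Ω, C.Infinite → Cardinal.mk C = Cardinal.mk ℕ ∨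
      Cardinal.mk C = Cardinal.mk Ω := by
    intro C hC
    have h1 : Cardinal.aleph0 ≤ Cardinal.mk C := by
      rw [Cardinal.aleph0_le_mk_iff]
      exact hC.to_subtype
    have h2 : Cardinal.mk C ≤ Cardinal.aleph 1 := by
      rw [← hΩ]; exact Cardinal.mk_set_le C
    rcases eq_or_lt_of_le h2 with h | h
    · right; rw [h, hΩ]
    · left
      rw [Cardinal.mk_nat]
      apply le_antisymm _ h1
      rwa [← Cardinal.succ_aleph0, Order.lt_succ_iff] at h
  obtain ⟨r⟩ := iso_restrict π hAB
  rcases hcard A hA with h1 | h1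
  · rcases hcard B hB with h2 | h2
    · exact absurd (h1.trans h2.symm) hne
    · obtain ⟨i⟩ := iso_of_mk_eq h1
      obtain ⟨j⟩ := iso_of_mk_eq h2
      exact ⟨i.symm.trans (r.trans j)⟩
  · rcases hcard B hB with h2 | h2
    · obtain ⟨i⟩ := iso_of_mk_eq h1
      obtain ⟨j⟩ := iso_of_mk_eq h2
      exact ⟨j.symm.trans (r.symm.trans i)⟩
    · exact absurd (h1.trans h2.symm) hne

end Pool.Agent.H1.PF
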