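import Pool.Agent.H87.PFin.Borel

/-!
Every cardinality-preserving automorphism of `P(ω₁)/Fin` fixes the class of the initial segment
of `δ` for all `δ` in a club.
-/

namespace Pool.Agent.H1.PF

open Set Pool.Agent.H87.PFinAlg PFin

variable {Ω : Type}

section General

theorem mk_lft_inter (π : PFin Ω ≃o PFin Ω) (A B : Set Ω) :
    mk (lft π A ∩ lft π B) = mk (lft π (A ∩ B)) := by
  rw [← mk_inf, mk_lft, mk_lft, ← OrderIso.map_inf, mk_inf, mk_lft]

theorem mk_lft_diff (π : PFin Ω ≃o PFin Ω) (A B : Set Ω) :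
    mk (lft π A \ lft π B) = mk (lft π (A \ B)) := by
  rw [Set.sdiff_eq, ← mk_inf, ← mk_compl, mk_lft, mk_lft, ← map_compl', ← OrderIso.map_inf,
    mk_compl, mk_inf, ← Set.sdiff_eq, mk_lft]

theorem diff_countable {π : PFin Ω ≃o PFin Ω} (hπ : CtblPres π) {A B : Set Ω}
    (h : (A \ B).Countable) : (lft π A \ lft π B).Countable := by
  have h1 : (lft π (A \ B)).Countable := (hπ _).2 h
  have h2 := (ctEq_of_mk_eq (mk_lft_diff π A B)).1
  refine (h1.union h2).mono ?_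
  intro x hx
  by_cases hx' : x ∈ lft π (A \ B)
  · exact Or.inl hx'
  · exact Or.inr ⟨hx, hx'⟩

theorem inter_countable {π : PFin Ω ≃o PFin Ω} (hπ : CtblPres π) {A B : Set Ω}
    (h : (A ∩ B).Countable) : (lft π A ∩ lft π B).Countable := by
  have h1 : (lft π (A ∩ B)).Countable := (hπ _).2 h
  have h2 := (ctEq_of_mk_eq (mk_lft_inter π A B)).1
  refine (h1.union h2).mono ?_
  intro x hx
  by_cases hx' : x ∈ lft π (A ∩ B)
  · exact Or.inl hx'
  · exact Or.inr ⟨hx, hx'⟩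

theorem ctEq_lft_iInter {π : PFin Ω ≃o PFin Ω} (h : CtblPres π) (A : ℕ → Set Ω) :
    CtEq (lft π (⋂ n, A n)) (⋂ n, lft π (A n)) := by
  have h1 : CtEq (lft π (⋃ n, (A n)ᶜ)) (⋃ n, (lft π (A n))ᶜ) :=
    (ctEq_lft_iUnion h fun n => (A n)ᶜ).trans (CtEq.iUnion fun n => ctEq_lft_compl π (A n))
  have h2 := (ctEq_lft_compl π (⋃ n, (A n)ᶜ)).trans h1.compl
  rw [compl_iUnion, compl_iUnion] at h2
  simpa only [compl_compl] using h2

theorem CtEq.inter {A B C D : Set Ω} (h1 : CtEq A B) (h2 : CtEq C D) :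
    CtEq (A ∩ C) (B ∩ D) :=
  ⟨(h1.1.union h2.1).mono (by intro x hx; simp at hx ⊢; tauto),
    (h1.2.union h2.2).mono (by intro x hx; simp at hx ⊢; tauto)⟩

theorem ctEq_lft_inter (π : PFin Ω ≃o PFin Ω) (A B : Set Ω) :
    CtEq (lft π (A ∩ B)) (lft π A ∩ lft π B) :=
  (ctEq_of_mk_eq (mk_lft_inter π A B)).symm

/-- Lifts of the set of points lying in all `D n` and in finitely many `G n`. -/
theorem ctEq_lft_fin {π : PFin Ω ≃o PFin Ω} (h : CtblPres π) (D G : ℕ → Set Ω) :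
    CtEq (lft π {x | (∀ n, x ∈ D n) ∧ {n | x ∈ G n}.Finite})
      {y | (∀ n, y ∈ lft π (D n)) ∧ {n | y ∈ lft π (G n)}.Finite} := by
  have key : ∀ (D G : ℕ → Set Ω), {x | (∀ n, x ∈ D n) ∧ {n | x ∈ G n}.Finite} =
      (⋂ n, D n) ∩ (⋂ k : ℕ, ⋃ n : ℕ, G (k + n))ᶜ := by
    intro D G
    ext x
    simp only [mem_ofPred_eq, mem_inter_iff, mem_iInter, mem_compl_iff, mem_iUnion]
    refine and_congr Iff.rfl ?_
    constructor
    · intro hf hk
      obtain ⟨m, hm⟩ := hf.bddAbove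
      obtain ⟨n, hn⟩ := hk (m + 1)
      have := hm hn
      omega
    · intro hk
      push Not at hk
      obtain ⟨k, hk⟩ := hk
      refine (Set.finite_lt_nat k).subset ?_
      intro n hn
      by_contra hcon
      simp only [mem_ofPred_eq, not_lt] at hcon
      apply hk (n - k)
      rw [Nat.add_sub_cancel' hcon]
      exact hn
  rw [key, key]
  refine (ctEq_lft_inter π _ _).trans (CtEq.inter (ctEq_lft_iInter h D) ?_)
  refine (ctEq_lft_compl π _).trans (CtEq.compl ?_)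
  refine (ctEq_lft_iInter h _).trans ?_
  have h1 : ∀ k : ℕ, CtEq (lft π (⋃ n : ℕ, G (k + n))) (⋃ n : ℕ, lft π (G (k + n))) :=
    fun k => ctEq_lft_iUnion h _
  have h2 := (CtEq.iUnion fun k => (h1 k).compl).compl
  simpa only [compl_iUnion, compl_iInter, compl_compl] using h2

end General

section Order

variable [LinearOrder Ω] [WellFoundedLT Ω]

/-- The main lemma: no `δ` above `γ` closed under `g` has a countable infinite subset of its
initial segment whose image is almost disjoint from the initial segment. -/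
theorem main_lemma (hc : ∀ a : Ω, (Iio a).Countable) (hu : ¬ (univ : Set Ω).Countable)
    {π : PFin Ω ≃o PFin Ω} (hπ : CtblPres π) :
    ∃ g : Ω → Ω, ∃ γ : Ω, ∀ δ, γ < δ → (∀ β < δ, g β < δ) → ∀ e : ℕ → Ω,
      Function.Injective e → (∀ n, e n < δ) → ¬ (lft π (range e) ∩ Iio δ).Finite := by
  classical
  -- the set of bad points and the choice of the sequences
  let T : Set Ω := {δ | ∃ e : ℕ → Ω, Function.Injective e ∧ (∀ n, e n < δ) ∧
    (lft π (range e) ∩ Iio δ).Finite}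
  have hne : Nonempty Ω := by
    by_contra hcon
    rw [not_nonempty_iff] at hcon
    exact hu (Set.countable_univ_iff.2 inferInstance)
  obtain ⟨ε, hε⟩ : ∃ ε : Ω → ℕ → Ω, ∀ δ ∈ T, Function.Injective (ε δ) ∧ (∀ n, ε δ n < δ) ∧
      (lft π (range (ε δ)) ∩ Iio δ).Finite := by
    have : ∀ δ : Ω, ∃ e : ℕ → Ω, δ ∈ T → Function.Injective e ∧ (∀ n, e n < δ) ∧
      (lft π (range e) ∩ Iio δ).Finite := by
      intro δ
      by_cases hδ : δ ∈ T
      · obtain ⟨e, he⟩ := hδ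
        exact ⟨e, fun _ => he⟩
      · exact ⟨fun _ => Classical.arbitrary Ω, fun h => absurd h hδ⟩
    choose ε hε using this
    exact ⟨ε, hε⟩
  let T₀ : Set Ω := {δ | δ ∈ T ∧ ∀ γ < δ, lft π (range (ε γ)) ⊆ Iio δ}
  let E : Ω → Set Ω := fun δ => lft π (range (ε δ)) \ Iio δ
  have hEdisj : ∀ δ ∈ T₀, ∀ δ' ∈ T₀, ∀ y, y ∈ E δ → y ∈ E δ' → δ = δ' := by
    have haux : ∀ δ ∈ T₀, ∀ δ' ∈ T₀, ∀ y, y ∈ E δ → y ∈ E δ' → ¬ δ < δ' := by
      intro δ _ δ' hδ' y hy hy' hlt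
      exact hy'.2 (hδ'.2 δ hlt hy.1)
    intro δ hδ δ' hδ' y hy hy'
    exact le_antisymm (not_lt.1 (haux δ' hδ' δ hδ y hy' hy)) (not_lt.1 (haux δ hδ δ' hδ' y hy hy'))
  -- the fibres of the regressive functions and their preimages
  let Q : ℕ → Ω → Set Ω := fun n ξ => {y | ∃ δ ∈ T₀, y ∈ E δ ∧ ε δ n = ξ}
  let X : ℕ → Ω → Set Ω := fun n ξ => lft π.symm (Q n ξ)
  have hX : ∀ n ξ ζ, ξ ≠ ζ → (X n ξ ∩ X n ζ).Finite := by
    intro n ξ ζ hne'
    rw [lft_inter_finite]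
    refine Set.finite_empty.subset ?_
    rintro y ⟨⟨δ, h1, h2, h3⟩, ⟨δ', h4, h5, h6⟩⟩
    apply hne'
    rw [← h3, ← h6, hEdisj δ h1 δ' h4 y h2 h5]
  -- the pulled back functions
  let R : ℕ → Ω → Ω → Prop := fun n x ξ => ξ < x ∧ x ∈ X n ξ ∧ ∀ ζ < ξ, x ∉ X n ζ
  have hR : ∀ n x ξ ζ, R n x ξ → R n x ζ → ξ = ζ := by
    intro n x ξ ζ h1 h2
    rcases lt_trichotomy ξ ζ with h | h | h
    · exact absurd h1.2.1 (h2.2.2 ξ h)
    · exact h
    · exact absurd h2.2.1 (h1.2.2 ζ h)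
  have hRc : ∀ n ξ, {x | x ∈ X n ξ ∧ ¬ R n x ξ}.Countable := by
    intro n ξ
    have h1 : (⋃ ζ ∈ Iio ξ, X n ζ ∩ X n ξ).Countable :=
      (hc ξ).biUnion fun ζ hζ => (hX n ζ ξ (ne_of_lt hζ)).countable
    have h2 : (Iic ξ).Countable := by
      rw [← Iio_insert]; exact (hc ξ).insert ξ
    refine (h1.union h2).mono ?_
    rintro x ⟨hx, hn⟩
    by_cases h3 : x ≤ ξ
    · exact Or.inr h3
    · left
      simp only [R, not_and, not_forall, not_not] at hn
      obtain ⟨ζ, h4, h5⟩ := hn (not_le.1 h3) hx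
      exact mem_biUnion (show ζ ∈ Iio ξ from h4) ⟨h5, hx⟩
  -- the diagonal set
  obtain ⟨A, hA⟩ : ∃ A : Set Ω, ∀ x, x ∈ A ↔
      (∀ n, ∃ ξ, R n x ξ) ∧ {n | ∃ ξ, R n x ξ ∧ ξ ∈ A}.Finite := by
    let A : Ω → Prop := wellFounded_lt.fix (fun x ih =>
      (∀ n, ∃ ξ, R n x ξ) ∧ {n | ∃ ξ, ∃ h : ξ < x, R n x ξ ∧ ih ξ h}.Finite)
    refine ⟨{x | A x}, fun x => ?_⟩
    show A x ↔ _
    rw [show A x = ((∀ n, ∃ ξ, R n x ξ) ∧ {n | ∃ ξ, ∃ _ : ξ < x, R n x ξ ∧ A ξ}.Finite) from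
      WellFounded.fix_eq _ _ _]
    refine and_congr Iff.rfl ?_
    have : {n | ∃ ξ, ∃ _ : ξ < x, R n x ξ ∧ A ξ} = {n | ∃ ξ, R n x ξ ∧ ξ ∈ {x | A x}} := by
      ext n
      constructor
      · rintro ⟨ξ, _, h1, h2⟩
        exact ⟨ξ, h1, h2⟩
      · rintro ⟨ξ, h1, h2⟩
        exact ⟨ξ, h1.1, h1, h2⟩
    rw [this]
  let D : ℕ → Set Ω := fun n => {x | ∃ ξ, R n x ξ}
  let G : ℕ → Set Ω := fun n => {x | ∃ ξ, R n x ξ ∧ ξ ∈ A}
  have hAeq : A = {x | (∀ n, x ∈ D n) ∧ {n | x ∈ G n}.Finite} := by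
    ext x
    exact hA x
  -- the countable exceptional sets
  have hQX : ∀ n ξ, (Q n ξ \ lft π (X n ξ)).Finite := by
    intro n ξ
    exact (mk_eq_mk.1 (mk_lft_lft_symm π (Q n ξ))).2
  have hQD : ∀ n ξ, (Q n ξ \ lft π (D n)).Countable := by
    intro n ξ
    have h1 : (lft π (X n ξ) \ lft π (D n)).Countable := by
      apply diff_countable hπ
      refine (hRc n ξ).mono ?_
      rintro x ⟨h2, h3⟩
      exact ⟨h2, fun h4 => h3 ⟨ξ, h4⟩⟩
    refine ((hQX n ξ).countable.union h1).mono ?_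
    rintro y ⟨h2, h3⟩
    by_cases h4 : y ∈ lft π (X n ξ)
    · exact Or.inr ⟨h4, h3⟩
    · exact Or.inl ⟨h2, h4⟩
  have hQG : ∀ n ξ, ξ ∈ A → (Q n ξ \ lft π (G n)).Countable := by
    intro n ξ hξ
    have h1 : (lft π (X n ξ) \ lft π (G n)).Countable := by
      apply diff_countable hπ
      refine (hRc n ξ).mono ?_
      rintro x ⟨h2, h3⟩
      exact ⟨h2, fun h4 => h3 ⟨ξ, h4, hξ⟩⟩
    refine ((hQX n ξ).countable.union h1).mono ?_
    rintro y ⟨h2, h3⟩
    by_cases h4 : y ∈ lft π (X n ξ)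
    · exact Or.inr ⟨h4, h3⟩
    · exact Or.inl ⟨h2, h4⟩
  have hQG' : ∀ n ξ, ξ ∉ A → (Q n ξ ∩ lft π (G n)).Countable := by
    intro n ξ hξ
    have h1 : (lft π (X n ξ) ∩ lft π (G n)).Countable := by
      apply inter_countable hπ
      refine (hRc n ξ).mono ?_
      rintro x ⟨h2, ζ, h3, h4⟩
      refine ⟨h2, fun h5 => hξ ?_⟩
      rw [hR n x ξ ζ h5 h3]
      exact h4
    refine ((hQX n ξ).countable.union h1).mono ?_
    rintro y ⟨h2, h3⟩
    by_cases h4 : y ∈ lft π (X n ξ)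
    · exact Or.inr ⟨h4, h3⟩
    · exact Or.inl ⟨h2, h4⟩
  have hKA := ctEq_lft_fin hπ D G
  rw [← hAeq] at hKA
  -- bounds
  obtain ⟨γ, hγ⟩ := exists_bound hc hu (hKA.1.union hKA.2)
  have hb : ∀ ξ : Ω, ∃ β, (lft π (range (ε ξ)) ∪ ((⋃ n, Q n ξ \ lft π (D n)) ∪
      ((⋃ n, {y | ξ ∈ A ∧ y ∈ Q n ξ \ lft π (G n)}) ∪
        (⋃ n, {y | ξ ∉ A ∧ y ∈ Q n ξ ∩ lft π (G n)})))) ⊆ Iio β := by
    intro ξ
    apply exists_bound hc hu
    refine Set.Countable.union ((hπ _).2 (countable_range _)) ?_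
    refine Set.Countable.union (countable_iUnion fun n => hQD n ξ) ?_
    refine Set.Countable.union (countable_iUnion fun n => ?_) (countable_iUnion fun n => ?_)
    · by_cases h : ξ ∈ A
      · exact (hQG n ξ h).mono fun y hy => hy.2
      · exact Set.countable_empty.mono fun y hy => h hy.1
    · by_cases h : ξ ∈ A
      · exact Set.countable_empty.mono fun y hy => hy.1 h
      · exact (hQG' n ξ h).mono fun y hy => hy.2
  choose g hg using hb
  refine ⟨g, γ, fun δ hδ hcl e he1 he2 he3 => ?_⟩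
  have hδT : δ ∈ T := ⟨e, he1, he2, he3⟩
  obtain ⟨hi1, hi2, hi3⟩ := hε δ hδT
  have hδT₀ : δ ∈ T₀ := by
    refine ⟨hδT, fun β hβ y hy => ?_⟩
    exact lt_trans (hg β (Or.inl hy)) (hcl β hβ)
  -- the values on `E δ`
  have hval : ∀ y ∈ E δ, (y ∈ lft π A ↔ {n | ε δ n ∈ A}.Finite) := by
    intro y hy
    have hyδ : δ ≤ y := not_lt.1 hy.2
    have h1 : ∀ n, y ∈ Q n (ε δ n) := fun n => ⟨δ, hδT₀, hy, rfl⟩
    have hlt : ∀ n, g (ε δ n) < y := fun n => lt_of_lt_of_le (hcl _ (hi2 n)) hyδ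
    have h2 : ∀ n, y ∈ lft π (D n) := by
      intro n
      by_contra hcon
      exact absurd (hg (ε δ n) (Or.inr (Or.inl (mem_iUnion.2 ⟨n, h1 n, hcon⟩))))
        (not_lt.2 (hlt n).le)
    have h3 : ∀ n, (y ∈ lft π (G n) ↔ ε δ n ∈ A) := by
      intro n
      constructor
      · intro h4
        by_contra hcon
        exact absurd (hg (ε δ n) (Or.inr (Or.inr (Or.inr (mem_iUnion.2 ⟨n, hcon, h1 n, h4⟩)))))
          (not_lt.2 (hlt n).le)
      · intro h4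
        by_contra hcon
        exact absurd (hg (ε δ n) (Or.inr (Or.inr (Or.inl (mem_iUnion.2 ⟨n, h4, h1 n, hcon⟩)))))
          (not_lt.2 (hlt n).le)
    have h4 : y ∈ lft π A ↔ ((∀ n, y ∈ lft π (D n)) ∧ {n | y ∈ lft π (G n)}.Finite) := by
      constructor
      · intro h5
        by_contra hcon
        exact absurd (hγ (Or.inl ⟨h5, hcon⟩)) (not_lt.2 (le_trans hδ.le hyδ))
      · intro h5
        by_contra hcon
        exact absurd (hγ (Or.inr ⟨h5, hcon⟩)) (not_lt.2 (le_trans hδ.le hyδ))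
    rw [h4]
    have h5 : {n | y ∈ lft π (G n)} = {n | ε δ n ∈ A} := by
      ext n; exact h3 n
    rw [h5]
    exact ⟨fun h => h.2, fun h => ⟨h2, h⟩⟩
  -- the contradiction
  have hrange : (A ∩ range (ε δ)).Finite ↔ {n | ε δ n ∈ A}.Finite := by
    constructor
    · intro h
      exact (h.preimage hi1.injOn).subset fun n hn => ⟨hn, n, rfl⟩
    · intro h
      refine (h.image (ε δ)).subset ?_
      rintro x ⟨h1, n, rfl⟩
      exact ⟨n, h1, rfl⟩
  have hinf : ¬ (lft π (range (ε δ))).Finite := by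
    rw [lft_finite]
    exact Set.infinite_range_of_injective hi1
  have hint := lft_inter_finite π (A := A) (B := range (ε δ))
  by_cases hfin : {n | ε δ n ∈ A}.Finite
  · have h1 := hint.2 (hrange.2 hfin)
    apply hinf
    refine (h1.union hi3).subset ?_
    intro y hy
    by_cases h2 : y < δ
    · exact Or.inr ⟨hy, h2⟩
    · exact Or.inl ⟨(hval y ⟨hy, h2⟩).2 hfin, hy⟩
  · apply hfin
    rw [← hrange, ← hint]
    refine hi3.subset ?_
    rintro y ⟨h1, h2⟩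
    refine ⟨h2, ?_⟩
    by_contra h3
    exact hfin ((hval y ⟨h2, h3⟩).1 h1)

/-- `π [Iio δ] ≤ [Iio δ]` for closed `δ`. -/
theorem le_initial (hc : ∀ a : Ω, (Iio a).Countable) (hu : ¬ (univ : Set Ω).Countable)
    {π : PFin Ω ≃o PFin Ω} (hπ : CtblPres π) :
    ∃ g : Ω → Ω, ∃ γ : Ω, ∀ δ, γ < δ → (∀ β < δ, g β < δ) → π (mk (Iio δ)) ≤ mk (Iio δ) := by
  obtain ⟨g, γ, hg⟩ := main_lemma hc hu hπ
  refine ⟨g, γ, fun δ hδ hcl => ?_⟩
  rw [← mk_lft, mk_le_mk]
  by_contra hinf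
  set E := lft π (Iio δ) \ Iio δ with hE
  -- the preimage of `E` is almost inside the initial segment
  have h1 : (lft π.symm E \ Iio δ).Finite := by
    rw [← mk_le_mk, mk_lft, π.symm_apply_le, ← mk_lft, mk_le_mk]
    refine Set.finite_empty.subset ?_
    intro x hx
    exact hx.2 hx.1.1
  have h2 : ¬ (lft π.symm E).Finite := by
    rw [lft_finite]; exact hinf
  have h3 : (lft π.symm E ∩ Iio δ).Infinite := by
    intro h4
    apply h2
    refine (h4.union h1).subset ?_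
    intro x hx
    by_cases hx' : x < δ
    · exact Or.inl ⟨hx, hx'⟩
    · exact Or.inr ⟨hx, hx'⟩
  let e : ℕ → Ω := fun n => (h3.natEmbedding _ n : Ω)
  have he : ∀ n, e n ∈ lft π.symm E ∩ Iio δ := fun n => (h3.natEmbedding _ n).2
  refine hg δ hδ hcl e ?_ (fun n => (he n).2) ?_
  · intro m n hmn
    exact (h3.natEmbedding _).injective (Subtype.ext hmn)
  · have h4 : (lft π (range e) \ E).Finite := by
      rw [← mk_le_mk, mk_lft, ← π.le_symm_apply, ← mk_lft, mk_le_mk]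
      refine Set.finite_empty.subset ?_
      rintro x ⟨⟨n, rfl⟩, h5⟩
      exact h5 (he n).1
    refine h4.subset ?_
    rintro x ⟨h5, h6⟩
    exact ⟨h5, fun h7 => h7.2 h6⟩

/-- A cardinality-preserving automorphism fixes the classes of the initial segments of all
sufficiently closed `δ`. -/
theorem fixes (hc : ∀ a : Ω, (Iio a).Countable) (hu : ¬ (univ : Set Ω).Countable)
    {π : PFin Ω ≃o PFin Ω} (hπ : CtblPres π) :
    ∃ g : Ω → Ω, ∃ γ : Ω, ∀ δ, γ < δ → (∀ β < δ, g β < δ) → π (mk (Iio δ)) = mk (Iio δ) := by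
  obtain ⟨g, γ, hg⟩ := le_initial hc hu hπ
  obtain ⟨g', γ', hg'⟩ := le_initial hc hu hπ.symm
  refine ⟨fun β => max (g β) (g' β), max γ γ', fun δ hδ hcl => ?_⟩
  have h1 := hg δ (lt_of_le_of_lt (le_max_left _ _) hδ)
    fun β hβ => lt_of_le_of_lt (le_max_left _ _) (hcl β hβ)
  have h2 := hg' δ (lt_of_le_of_lt (le_max_right _ _) hδ)
    fun β hβ => lt_of_le_of_lt (le_max_right _ _) (hcl β hβ)
  apply le_antisymm h1
  rwa [π.symm_apply_le] at h2

end Order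

end Pool.Agent.H1.PF
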